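import Pool.Agent.Helper83.RB.St2
import Pool.Agent.Helper3.RB.M_LEX
import Pool.Agent.Helper78.RB.M_SHW
import Pool.Agent.Helper39.RB.M_DEC
import Pool.Agent.Helper66.RB.M_RWR
import Pool.Agent.Helper13.RB.M_SPN
import Pool.Agent.Helper96.RB.M_UNI
import Pool.Agent.Helper89.RB.M_JFI
import Pool.Agent.Helper9.RB.M_PIC
import Pool.Agent.Helper67.RB.M_PIR
import Pool.Agent.Helper21.RB.M_POL
import Pool.Agent.Helper63.RB.M_LCC
import Pool.Agent.Helper91.RB.M_WGT
import Pool.Agent.Helper63.RB.M_ABN
import Pool.Agent.Helper65.RB.M_SOL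
import Pool.Agent.Helper18.RB.M_HAL
import Pool.Agent.Helper42.RB.M_ORD
import Pool.Agent.Helper14.RB.M_GEN
import Pool.Agent.Helper58.RB.M_INN
import Pool.Agent.Helper54.RB.M_ASM
import Pool.Agent.Helper41.RB.M_DIC
import Pool.Agent.Helper57.RB.M_NIL
import Pool.Agent.Helper65.RB.M_NIR
import Pool.Agent.Helper88.RB.M_BOT

set_option autoImplicit false

/-! # Project RB: assembly of the modules -/

namespace Pool.Agent.Helper83.RB

theorem lex : StLEX := Helper3.RB.hLEX

theorem shw : StSHW := Helper78.RB.hSHW lex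

theorem dec : StDEC := Helper39.RB.hDEC lex

theorem rwr : StRWR := Helper66.RB.hRWR

theorem spn : StSPN := Helper13.RB.hSPN shw rwr

theorem uni : StUNI := Helper96.RB.hUNI

theorem jfi : StJFI := Helper89.RB.hJFI

theorem pic : StPIC := Helper9.RB.hPIC dec rwr spn uni jfi

theorem pir : StPIR := Helper67.RB.hPIR pic

theorem pol : StPOL := Helper21.RB.hPOL

theorem lcc : StLCC := Helper63.RB.hLCC

theorem wgt : StWGT := Helper91.RB.hWGT pol lcc

theorem abn : StABN := Helper63.RB.hABN wgt

theorem sol : StSOL := Helper65.RB.hSOL abn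

theorem hal : StHAL := Helper18.RB.hHAL

theorem ord : StORD := Helper42.RB.hORD

theorem gen : StGEN := Helper14.RB.hGEN ord

theorem inn : StINN := Helper58.RB.hINN pir sol

theorem asm : StASM := Helper54.RB.hASM inn sol hal gen

theorem nil : StNIL := Helper57.RB.hNIL dec rwr spn uni

theorem nir : StNIR := Helper65.RB.hNIR nil

theorem bot : StBOT := Helper88.RB.hBOT nir

theorem dic : StDIC := Helper41.RB.hDIC inn

end Pool.Agent.Helper83.RB
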