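import Mathlib

set_option autoImplicit false

/-!
Project RB (problem MP_97dcad_al, restricted Burnside groups of prime exponent):
finite groups of exponent `p` which are soluble-by-PI-by-soluble have class polynomial in the
number of generators.  Definitions and the statements of the modules; the docstring of every
statement contains its complete proof.

Conventions: words are lists of letters in `Fin r`, ordered lexicographically (the order `<` of
Mathlib on `List (Fin r)`); `(⊤ : Subgroup G).lowerCentralSeries k` is `gamma_{k+1}(G)` of the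
books, so `(⊤ : Subgroup G).lowerCentralSeries c = ⊥` means that the class is at most `c`;
commutators are Mathlib commutators `⁅g, h⁆ = g * h * g⁻¹ * h⁻¹`.
-/

namespace Pool.Agent.Helper83.RB

open scoped BigOperators

/-- The value in the monoid `B` of the word `w` at the elements `y`. -/
def ev {r : ℕ} {B : Type} [Monoid B] (y : Fin r → B) (w : List (Fin r)) : B := (w.map y).prod

/-- The word `w` is `d`-divisible: it contains `d` consecutive blocks `u 0, …, u (d-1)` such that
every non-trivial permutation of the blocks makes the concatenation lexicographically smaller. -/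
def DDiv {r : ℕ} (d : ℕ) (w : List (Fin r)) : Prop :=
  ∃ (l t : List (Fin r)) (u : Fin d → List (Fin r)),
    w = l ++ (List.ofFn u).flatten ++ t ∧
    ∀ σ : Equiv.Perm (Fin d), σ ≠ 1 →
      (List.ofFn fun i => u (σ i)).flatten < (List.ofFn u).flatten

/-- The `𝔽_p`-algebra `B` satisfies a multilinear polynomial identity of degree `d`:
`∑_σ a_σ x_{σ 0} x_{σ 1} ⋯ x_{σ (d-1)} = 0` for all `x_0, …, x_{d-1}` in `B`, with coefficients
`a_σ` in `𝔽_p` not all zero. -/
def PIdeg (p d : ℕ) (B : Type) [Ring B] [Algebra (ZMod p) B] : Prop :=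
  ∃ a : Equiv.Perm (Fin d) → ZMod p, a ≠ 0 ∧
    ∀ x : Fin d → B, ∑ σ, a σ • (List.ofFn fun i => x (σ i)).prod = 0

/-- The representation `ρ` of the group `N` over `𝔽_p` satisfies a non-trivial multilinear
relation of degree `d`: there are coefficients `a_σ` in `𝔽_p`, not all zero, such that
`∑_σ a_σ ρ(g_{σ 0} g_{σ 1} ⋯ g_{σ (d-1)}) = 0` for all `g_0, …, g_{d-1}` in `N`. -/
def MLRel (p d : ℕ) {N W : Type} [Group N] [AddCommGroup W] [Module (ZMod p) W]
    (ρ : Representation (ZMod p) N W) : Prop :=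
  ∃ a : Equiv.Perm (Fin d) → ZMod p, a ≠ 0 ∧
    ∀ g : Fin d → N, ∑ σ, a σ • ρ (List.ofFn fun i => g (σ i)).prod = 0

/-! ### Combinatorics of words -/

/-- LEX.  PROOF.  (1) For lists `a`, `b` of the same length with `a < b` one has
`a ++ x < b ++ y` for all `x`, `y` (induction on `a`), and `c ++ a < c ++ b` iff `a < b`.
(2) Let `σ ≠ 1` and let `j` be the least index with `σ j ≠ j`. Then `σ i = i` for `i < j`, hence
`σ j > j` (if `σ j < j`, then `σ (σ j) = σ j`, so `σ j = j` by injectivity). The two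
concatenations have the same first `j` blocks; then the left one continues with
`v (σ j) ++ …` and the right one with `v j ++ …`, where `v (σ j) < v j` have the same length.
Apply (1). -/
def StLEX : Prop :=
  ∀ (r d L : ℕ) (v s : Fin d → List (Fin r)), (∀ i, (v i).length = L) →
    (∀ i j, i < j → v j < v i) → ∀ σ : Equiv.Perm (Fin d), σ ≠ 1 →
    (List.ofFn fun i => v (σ i) ++ s (σ i)).flatten < (List.ofFn fun i => v i ++ s i).flatten

/-- SHW (Shirshov's lemma in the form needed here).  PROOF.  Put `L = k * d` and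
`N = L * d ^ (r ^ L)`. For a word `w` let `F w` be the finite set of its factors (infixes) of
length `L`; it has at most `r ^ L` elements.
(1) Claim: if `L * d ^ n ≤ w.length` and `(F w).card ≤ n` then some infix `w'` of `w` can be
written `w' = b_1 ++ ⋯ ++ b_d ++ rest` with all `b_i` of the same length `≥ L` and
`F b_i = F w'` for every `i`, and `L * d ≤ w'.length`. Induction on `n`. For `n = 0` the word has
length `≥ L`, so its initial segment of length `L` is in `F w`, contradiction. For `n + 1`, cut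
`w = b_1 ++ ⋯ ++ b_d ++ rest` with `b_i` of length `L * d ^ n`; clearly `F b_i ⊆ F w`. If all
`F b_i = F w` we are done with `w' = w`. Otherwise some `F b_i` has at most `n` elements and we
apply the induction hypothesis to `b_i`.
(2) Let `w'` be as in (1), `F = F w'`.
Case A: `F` has fewer than `d` elements. Since `w'.length ≥ L * d ≥ L + d - 1`, the `d` factors of
length `L` of `w'` which start at the positions `0, …, d - 1` are defined, hence two of them,
starting at `i < j ≤ d - 1`, coincide. With `q = j - i`, `1 ≤ q ≤ d - 1`, the letters of `w'` at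
positions `x` and `x + q` coincide for `i ≤ x < i + L`; hence the factor of length `k * q`
(`≤ L`) starting at `i` is `(List.replicate k u).flatten` where `u` is the factor of length `q`
starting at `i`. First alternative.
Case B: `F` has at least `d` elements. Choose `v_1 > v_2 > ⋯ > v_d` in `F` (all of length `L`).
For every `i` the word `v_i` is a factor of `b_i`; let `x_i` be the position in `w'` where this
occurrence starts. Let `u_i` (for `i < d`) be the factor of `w'` between the positions `x_i` and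
`x_{i+1}`, and `u_d` the factor from `x_d` to the end. Since the occurrence of `v_i` is inside
`b_i` and `x_{i+1}` is in `b_{i+1}`, `u_i = v_i ++ s_i`. By LEX the word is `d`-divisible. -/
def StSHW : Prop :=
  ∀ r d k : ℕ, 1 ≤ d → 1 ≤ k → ∃ N : ℕ, ∀ w : List (Fin r), N ≤ w.length →
    (∃ l u t : List (Fin r), u ≠ [] ∧ w = l ++ (List.replicate k u).flatten ++ t) ∨ DDiv d w

/-- DEC.  PROOF.  (1) If `s = [a_1, …, a_d]` is a strictly decreasing sublist (subsequence) of
`w` of length `d`, then `w` is `d`-divisible: from `a :: s' <+ w` we get `w = l ++ a :: w'` with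
`s' <+ w'`; iterating, `w = l ++ u_1 ++ ⋯ ++ u_d` with `u_i = a_i :: s_i`; apply LEX with
`L = 1`, `v_i = [a_i]`, `t = []`.
(2) Let `K ≥ 1` (for `K = 0` take `b = []`, of cardinality `0 < d`). Cut an initial segment of `w`
into `M = (d - 1) * m + 1` blocks `b_1, …, b_M` of length `K`. If some block has fewer than `d`
distinct letters we are in the second alternative. Otherwise all blocks have at least `d` distinct
letters, and we find a strictly decreasing sublist of length `d`. Claim, by induction on `n`: for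
blocks `b_1, …, b_n` with at least `d` distinct letters each, either `b_1 ++ ⋯ ++ b_n` has a
strictly decreasing sublist of length `d`, or there is a function `R : ℕ → ℕ` with
`n ≤ ∑_{j=1}^{d-1} R j`, `R j ≤ m`, and such that for `1 ≤ j ≤ d - 1` with `R j ≥ 1` there is a
strictly decreasing sublist of `b_1 ++ ⋯ ++ b_n` of length `j` whose last (smallest) letter is
`≥ R j - 1` (letters are the numbers `0, …, m - 1`). For `n = 0` take `R = 0`. Step: let
`c_1 > c_2 > ⋯ > c_d` be the `d` largest distinct letters of `b_{n+1}` (or any `d` distinct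
letters of it, in decreasing order). If `R j ≥ c_j + 1` for all `1 ≤ j ≤ d - 1`, then (if
`d ≥ 2`) there is a strictly decreasing sublist of length `d - 1` with last letter
`≥ R (d-1) - 1 ≥ c_{d-1} > c_d`, followed by `c_d` in `b_{n+1}`: length `d`; if `d = 1`, the
one-letter list `[c_1]` does it. Otherwise let `j ≤ d - 1` be the least index with `R j < c_j + 1`.
If `j = 1`, the list `[c_1]` allows to put `R 1 := c_1 + 1`; if `j > 1`, a strictly decreasing
sublist of length `j - 1` with last letter `≥ R (j-1) - 1 ≥ c_{j-1} > c_j` followed by `c_j`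
allows to put `R j := c_j + 1 ≤ m`. In both cases `∑ R` grows by at least one.
For `n = M` the second alternative of the claim would give `(d-1) * m + 1 ≤ ∑ R ≤ (d - 1) * m`.-/
def StDEC : Prop :=
  ∀ (m d K : ℕ), 1 ≤ d → ∀ w : List (Fin m), ((d - 1) * m + 1) * K ≤ w.length →
    DDiv d w ∨ ∃ l b t : List (Fin m), w = l ++ b ++ t ∧ b.length = K ∧ b.toFinset.card < d

/-! ### Algebras with a polynomial identity -/

/-- RWR.  PROOF.  (1) Normalisation: if `a σ₀ ≠ 0`, replace `x` by `x ∘ σ₀⁻¹` and divide by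
`a σ₀`: there is `b : Equiv.Perm (Fin d) → ZMod p` with `b 1 = 1` and
`∑ σ, b σ • ∏ x (σ i) = 0` for all `x` (`b τ = a (τ * σ₀ or σ₀ * τ) / a σ₀`).
(2) There are finitely many words of length `n`; the lexicographic order on them is a linear
order, so we may argue by induction: let `w` be of length `n` and assume `ev y w' ∈ M` for all
`w' < w` of length `n`. If `ev y w ∈ M` fails then `w = l ++ (List.ofFn u).flatten ++ t` is
`d`-divisible. Apply the identity to `x i = ev y (u i)` and multiply by `ev y l` and `ev y t`: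
`ev y w = - ∑_{σ ≠ 1} b σ • ev y (l ++ (List.ofFn fun i => u (σ i)).flatten ++ t)`, and each word on
the right has length `n` and is `< w` (equal beginnings `l`; the two middle parts have the same
length; so `<` is preserved when `t` is appended). Hence `ev y w ∈ M`, contradiction. -/
def StRWR : Prop :=
  ∀ (p d r n : ℕ) [Fact p.Prime] (B : Type) [Ring B] [Algebra (ZMod p) B], PIdeg p d B →
    ∀ (y : Fin r → B) (M : Submodule (ZMod p) B),
    (∀ w : List (Fin r), w.length = n → ev y w ∈ M ∨ DDiv d w) →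
    ∀ w : List (Fin r), w.length = n → ev y w ∈ M

/-- SPN.  PROOF.  Let `N` be the number given by SHW for `r, d, k = p`, and `δ` the number of words
over `Fin r` of length `< N`. Given `B`, `h`, let `y i = (h i : B)` and `S` the set of all
`ev y w` with `w.length < N`, `M = span S`. Claim: `ev y w ∈ M` for all words `w`, by strong
induction on the length `n` of `w`. If `n < N` clear. If `n ≥ N`, use RWR: for every `w` of length
`n`, by SHW either `w` is `d`-divisible or `w = l ++ (List.replicate p u).flatten ++ t`, `u ≠ []`,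
and then `ev y w = ev y l * (ev y u) ^ p * ev y t = ev y (l ++ t)`, because `ev y u` is (the value
of) an element of the closure, whose `p`-th power is `1`; and `l ++ t` is shorter than `w`, so its
value is in `M`. Finally every element of `Subgroup.closure (Set.range h)` is a product of the
`h i` (no inverses are needed: `(h i)⁻¹ = (h i) ^ (p - 1)`), hence its value is some `ev y w`. -/
def StSPN : Prop :=
  ∀ (p r d : ℕ) [Fact p.Prime], 1 ≤ d → ∃ δ : ℕ,
    ∀ (B : Type) [Ring B] [Algebra (ZMod p) B], PIdeg p d B →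
    ∀ h : Fin r → Bˣ, (∀ g ∈ Subgroup.closure (Set.range h), g ^ p = 1) →
    ∃ S : Finset B, S.card ≤ δ ∧
      ∀ g ∈ Subgroup.closure (Set.range h), (g : B) ∈ Submodule.span (ZMod p) (S : Set B)

/-- UNI.  PROOF.  Let `V` be the `𝔽_p`-span of the values `(g : B)`, `g ∈ H`. It is contained in
the span of `S`, so its dimension is at most `δ`; it is finite, hence `H` is finite, a `p`-group;
`1 ∈ V` and `g V ⊆ V` for `g ∈ H` (left multiplication). Claim: for every `n` and every subspace
`W ⊆ B` with `finrank W ≤ n`, finite-dimensional, with `g W ⊆ W` for `g ∈ H`, all products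
`(g_1 - 1) ⋯ (g_n - 1)` with `g_i ∈ H` kill `W` (from the left). Induction on `n`; if `W = 0`
clear. If `W ≠ 0`: `H` acts on the dual space `W →ₗ[ZMod p] ZMod p` (`(g f)(w) = f (g⁻¹ w)`), a
finite set of cardinality a positive power of `p`; by the fixed point theorem for `p`-groups
(`IsPGroup.card_modEq_card_fixedPoints` or
`IsPGroup.exists_fixed_point_of_prime_dvd_card_of_fixed_point`) there is a fixed `f ≠ 0`. The
subspace `W' = W ∩ ker f` is `H`-stable, has smaller dimension, and contains `(g - 1) w` for all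
`g ∈ H`, `w ∈ W`. By induction products of `n - 1` factors kill `W'`, so products of `n` factors
kill `W`. (Instead of the dual one may take a non-zero fixed vector in `W` and a quotient.)
Apply the claim to `V` and the element `1 ∈ V`: the product of any `δ` or more factors is `0`
(for a longer list, the product of the last `δ` factors is already zero). -/
def StUNI : Prop :=
  ∀ (p δ : ℕ) [Fact p.Prime] (B : Type) [Ring B] [Algebra (ZMod p) B] (H : Subgroup Bˣ),
    (∀ g ∈ H, g ^ p = 1) → ∀ S : Finset B, S.card ≤ δ →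
    (∀ g ∈ H, (g : B) ∈ Submodule.span (ZMod p) (S : Set B)) →
    ∀ l : List Bˣ, (∀ g ∈ l, g ∈ H) → δ ≤ l.length → (l.map fun g => (g : B) - 1).prod = 0

/-- JFI.  PROOF.  Let `y i = φ (f i) - 1` and for `k : ℕ` let `J k` be the additive subgroup of `B`
generated by the `ev y w` with `k ≤ w.length`. Then `1 ∈ J 0`, `J (k+1) ≤ J k`,
`J a * J b ⊆ J (a + b)` and `J T = 0`.
(1) `φ g - 1 ∈ J 1` for every `g : N`: true for `g = f i`; if true for `g, h` then
`φ (g h) - 1 = (φ g - 1)(φ h - 1) + (φ g - 1) + (φ h - 1) ∈ J 1`; every element of `N` is a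
product of the `f i` (inverses are powers, `g⁻¹ = g ^ (p - 1)`). In particular `φ g ∈ J 0`.
(2) `φ g - 1 ∈ J (k + 1)` for `g ∈ (⊤ : Subgroup N).lowerCentralSeries k`, by induction on `k`:
the set of `g` with `φ g - 1 ∈ J (k+2)` is a subgroup (`φ g⁻¹ - 1 = - φ g⁻¹ (φ g - 1)`), and it
contains the generators `⁅g, h⁆`, `g` in the `k`-th term, `h : N`:
`φ ⁅g, h⁆ - 1 = (φ g φ h - φ h φ g) φ (g⁻¹ h⁻¹)` and
`φ g φ h - φ h φ g = (φ g - 1)(φ h - 1) - (φ h - 1)(φ g - 1) ∈ J (k + 2)`.
(3) For `k = T`: `φ g - 1 ∈ J (T + 1) ≤ J T = 0`. -/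
def StJFI : Prop :=
  ∀ (p m T : ℕ) (N : Type) [Group N], 1 ≤ p → (∀ g : N, g ^ p = 1) →
    ∀ f : Fin m → N, Subgroup.closure (Set.range f) = ⊤ →
    ∀ (B : Type) [Ring B] (φ : N →* Bˣ),
    (∀ w : List (Fin m), T ≤ w.length → ev (fun i => ((φ (f i) : Bˣ) : B) - 1) w = 0) →
    (⊤ : Subgroup N).lowerCentralSeries T ≤ φ.ker

/-- PIC.  PROOF (from DEC, RWR, SPN, UNI, JFI).  If `d = 0`: `Equiv.Perm (Fin 0)` has one element,
so the identity says `a 1 • 1 = 0` with `a 1 ≠ 0`, hence `B` is trivial and `φ.ker = ⊤`. Let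
`d ≥ 1`, `δ` the number of SPN for `p, r = d - 1, d`, `K = δ + 1`, `C₀ = d * K`. Given the data,
let `y i = φ (f i) - 1`, `T = ((d - 1) * m + 1) * K ≤ C₀ * (m + 1)`.
(1) If `b` is a word of length `K` with fewer than `d` distinct letters, then `ev y b = 0`: choose
`e : Fin (d - 1) → Fin m` whose range contains the letters of `b` (possible because `b ≠ []`, so
`m ≥ 1`, and `b.toFinset.card ≤ d - 1`), `h j = φ (f (e j))`; the elements of
`H = Subgroup.closure (Set.range h)` are values of `φ`, so their `p`-th power is `1`. SPN gives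
`S`, and UNI applied to the list `b.map (φ ∘ f)`, of length `K ≥ δ`, gives `ev y b = 0`.
(2) `ev y w = 0` for all words of length `n ≥ T`: RWR with `M = ⊥`; for a word `w` of length `n`,
DEC gives that `w` is `d`-divisible or `w = l ++ b ++ t` with `b` as in (1) and then
`ev y w = ev y l * 0 * ev y t = 0`.
(3) JFI gives `lowerCentralSeries T ≤ φ.ker`, and the series is antitone. -/
def StPIC : Prop :=
  ∀ (p d : ℕ) [Fact p.Prime], ∃ C₀ : ℕ, ∀ (m : ℕ) (N : Type) [Group N], (∀ g : N, g ^ p = 1) →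
    (∃ f : Fin m → N, Subgroup.closure (Set.range f) = ⊤) →
    ∀ (B : Type) [Ring B] [Algebra (ZMod p) B], PIdeg p d B → ∀ φ : N →* Bˣ,
    (⊤ : Subgroup N).lowerCentralSeries (C₀ * (m + 1)) ≤ φ.ker

/-- PIR.  PROOF (from PIC).  Same `C₀`. Let `ρ` satisfy the relation with coefficients `a`. Let
`B = Submodule.span (ZMod p) (Set.range ρ)`, which is a subalgebra of `Module.End (ZMod p) W`
(take `B = Algebra.adjoin (ZMod p) (Set.range ρ)`, as a type; it equals the span of `Set.range ρ`
because `Set.range ρ` is a submonoid, `Algebra.adjoin_eq_span` with `Submonoid.closure_eq`). The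
expression `∑ σ, a σ • (List.ofFn fun i => x (σ i)).prod` is additive and `ZMod p`-linear in every
variable `x j`, and vanishes when all `x j` are in `Set.range ρ` (`ρ` of the product of a list is
the product of the `ρ`); hence it vanishes for all `x j` in the span (replace the variables one by
one; or use `MultilinearMap.mkPiAlgebraFin` and extensionality on a spanning set). So `PIdeg p d B`.
Let `φ : N →* Bˣ` be the corresponding homomorphism (`ρ g` is invertible in `B` with inverse
`ρ g⁻¹ ∈ B`, for instance via `MonoidHom.toHomUnits` of the corestriction `N →* B`). Its kernel is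
`ρ.ker`. -/
def StPIR : Prop :=
  ∀ (p d : ℕ) [Fact p.Prime], ∃ C₀ : ℕ, ∀ (m : ℕ) (N : Type) [Group N], (∀ g : N, g ^ p = 1) →
    (∃ f : Fin m → N, Subgroup.closure (Set.range f) = ⊤) →
    ∀ (W : Type) [AddCommGroup W] [Module (ZMod p) W] (ρ : Representation (ZMod p) N W),
    MLRel p d ρ → ∀ g ∈ (⊤ : Subgroup N).lowerCentralSeries (C₀ * (m + 1)), ρ g = 1

/-! ### Abelian-by-nilpotent groups -/

/-- POL (inclusion-exclusion).  PROOF.  For `A : Finset (Fin n)` let `x_A` be the product of the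
`x i`, `i ∈ A`, in increasing order. Then
`X_S := ∏_{i ∈ S} (1 + x i) - 1 = ∑_{∅ ≠ A ⊆ S} x_A` (product in increasing order), so
`X_S ^ n = ∑ x_{A_1} ⋯ x_{A_n}` over all `n`-tuples of non-empty subsets `A_j ⊆ S`. Hence
`0 = ∑_S (-1)^(n - |S|) X_S ^ n = ∑_{(A_j)} x_{A_1} ⋯ x_{A_n} ∑_{S ⊇ ⋃ A_j} (-1)^(n - |S|)`, and
the inner sum is `1` if `⋃ A_j` is everything and `0` otherwise (`Finset.sum_powerset_neg_one_pow_card`
or similar). So the sum of `x_{A_1} ⋯ x_{A_n}` over all tuples of non-empty sets with union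
everything is `0`. The tuples with `∑ |A_j| = n` are exactly `A_j = {σ j}` with `σ` a permutation
and contribute the sum on the left of the claim; for all others `∑ |A_j| > n`, and
`x_{A_1} ⋯ x_{A_n}` is the value of a word of length `> n` in which every letter occurs. -/
def StPOL : Prop :=
  ∀ (R : Type) [Ring R] (n : ℕ) (x : Fin n → R),
    (∀ S : Finset (Fin n),
      ((((List.finRange n).filter (· ∈ S)).map (fun i => 1 + x i)).prod - 1) ^ n = 0) →
    ∑ σ : Equiv.Perm (Fin n), (List.ofFn fun i => x (σ i)).prod ∈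
      AddSubgroup.closure {z : R | ∃ w : List (Fin n),
        n < w.length ∧ (∀ i, i ∈ w) ∧ z = (w.map x).prod}

/-- LCC (a standard fact).  PROOF.  `Γ i := (⊤ : Subgroup G).lowerCentralSeries i`. Induction on `j`,
all `i`. `j = 0`: `⁅Γ i, ⊤⁆ = Γ (i+1)`. Step: `⁅Γ i, Γ (j+1)⁆ = ⁅Γ i, ⁅Γ j, ⊤⁆⁆`; by the three
subgroups lemma modulo the normal subgroup `Γ (i + j + 2)` (`commutator_commutator_eq_bot_of_rotate`
in the quotient, or directly from the Hall-Witt identity), it is enough that
`⁅⁅Γ j, Γ i⁆, ⊤⁆ ≤ ⁅Γ (i+j+1), ⊤⁆ = Γ (i+j+2)` and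
`⁅⁅⊤, Γ i⁆, Γ j⁆ = ⁅Γ (i+1), Γ j⁆ ≤ Γ (i+j+2)`. -/
def StLCC : Prop :=
  ∀ (G : Type) [Group G] (i j : ℕ),
    ⁅(⊤ : Subgroup G).lowerCentralSeries i, (⊤ : Subgroup G).lowerCentralSeries j⁆ ≤
      (⊤ : Subgroup G).lowerCentralSeries (i + j + 1)

/-- WGT.  PROOF (from POL and LCC).  Write `T g = ρ g - 1`. An element of
`(⊤ : Subgroup G).lowerCentralSeries (w - 1)`, `w ≥ 1`, is said to have weight `w`. For `n, k : ℕ`
let `Q n k` be the additive subgroup of `A` generated by the products `T g_1 ⋯ T g_j`, `j ≤ n`,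
for which there are `w_i ≥ 1`, `g_i` of weight `w_i`, `k ≤ ∑ w_i`; let `E k = ⋃_n Q n k` (the same
without the condition on the number of factors). Then `1 ∈ E 0`, `E k * E l ⊆ E (k + l)`,
`E (k+1) ≤ E k`, `Q n k * E l ⊆ E (k+l)`, and `ρ g = 1 + T g ∈ E 0`.
(1) Commutation: if `g` has weight `a` and `h` has weight `b`, then, because `g h = ⁅g, h⁆ h g`,
`T g * T h - T h * T g = ρ g ρ h - ρ h ρ g = T ⁅g, h⁆ * ρ (h g) = T ⁅g, h⁆ + T ⁅g, h⁆ * T (h g)`,
where `⁅g, h⁆` has weight `a + b` by LCC; the last product is in `E (a + b + 1)`.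
(2) Claim: a product `P = T g_1 ⋯ T g_n`, `n ≥ p - 1`, of total weight `≥ k` (weights `w_i`) is in
`Q (n-1) k + E (k+1)`. By (1), interchanging two adjacent factors changes `P` by an element of
`Q (n-1) k + E (k+1)`. Hence, for every permutation `σ` of the first `p - 1` factors, the permuted
product is congruent to `P`. Sum over `σ`: `(p-1)! • P` is congruent to
`(∑_σ T g_{σ 1} ⋯ T g_{σ (p-1)}) * T g_p ⋯ T g_n`. Apply POL with `n := p - 1`, `x_i = T g_i`:
the hypothesis holds because `∏_{i ∈ S} (1 + T g_i) - 1 = ρ (∏ g_i) - 1` and `hE`. So the sum over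
`σ` is in the additive group generated by values of words of length `> p - 1` in the `T g_i`,
`i ≤ p - 1`, in which every `i` occurs; such a value has total weight at least `w_1 + ⋯ + w_{p-1} + 1`.
So `(p-1)! • P ∈ Q (n-1) k + E (k+1)`. By Wilson `(p-1)! = -1` modulo `p`, and `p = 0` in `A`;
so `P ∈ Q (n-1) k + E (k+1)`.
(3) By induction on the number of factors, `E k ≤ Q (p-2) k + E (k+1)` for all `k`.
(4) `T g = 0` if `g` has weight `≥ c + 1`. So a non-zero product of at most `p - 2` factors has total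
weight at most `(p - 2) * c` (its factors can only be given weights `≤ c`), and `Q (p-2) k = 0` for
`k > (p - 2) * c`. Hence `E k ≤ E (k+1) ≤ E (k+2) ≤ ⋯` for such `k`.
(5) `E k = 0` for `k > c * n₀`: a non-zero product of total weight `≥ k` has all weights `≤ c`, so
more than `n₀` factors, so it is zero by hypothesis. With (4): `E k = 0` for all
`k > (p - 2) * c`.
(6) A product of `n > (p - 2) * c` factors `T g` has weight at least `n` (every element has weight
`1`), so it is in `E n = 0`. -/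
def StWGT : Prop :=
  ∀ (p c : ℕ) [Fact p.Prime] (G : Type) [Group G] (A : Type) [Ring A], (p : A) = 0 →
    ∀ ρ : G →* A, (∀ g, (ρ g - 1) ^ (p - 1) = 0) →
    (∀ g ∈ (⊤ : Subgroup G).lowerCentralSeries c, ρ g = 1) →
    (∃ n₀ : ℕ, ∀ l : List G, n₀ ≤ l.length → (l.map fun g => ρ g - 1).prod = 0) →
    ∀ l : List G, (p - 2) * c < l.length → (l.map fun g => ρ g - 1).prod = 0

/-- ABN.  PROOF (from WGT).  Make `V` a commutative group, `A = AddMonoid.End (Additive V)` (a
ring), `ρ : G →* A` the conjugation action (`MulAut.conjNormal`), `Γ k` the lower central series.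
* `(p : A) = 0` because `v ^ p = 1`.
* `(ρ g - 1) ^ (p - 1) = 0`: for `v ∈ V`, `(v g) ^ p = 1` and `g ^ p = 1` give
`v * (g v g⁻¹) * (g² v g⁻²) ⋯ (g^(p-1) v g^(-(p-1))) = 1`, i.e. `∑_{i < p} (ρ g) ^ i = 0` in `A`;
and `∑_{i<p} X ^ i = (X - 1) ^ (p - 1)` in `(ZMod p)[X]` (multiply by `X - 1`:
`X ^ p - 1 = (X - 1) ^ p`), or `(-1)^i * choose (p-1) i = 1` modulo `p`.
* `ρ g = 1` for `g ∈ Γ c ≤ V`, because `V` is abelian.
* `n₀`: `G` is a finite `p`-group, hence nilpotent, `Γ n₁ = ⊥` for some `n₁`; `(ρ g - 1) v` is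
`g v g⁻¹ v⁻¹ = ⁅g, v⁆`, so `ρ g - 1` maps `V ∩ Γ k` to `V ∩ Γ (k + 1)`, and products of `n₁`
factors are zero.
So by WGT products of `n = (p - 2) * c + 1` elements `ρ g - 1` vanish. Now `Γ (c + j)` is contained
in the subgroup of `V` generated by the `(ρ g_1 - 1) ⋯ (ρ g_j - 1) v`, `v ∈ V` (induction:
`Γ (c + j + 1)` is generated by the `⁅u, g⁆ = ⁅g, u⁆⁻¹ = - (ρ g - 1) u`, `u ∈ Γ (c + j)`, and
`ρ g - 1` is additive). Hence `Γ (c + n) = ⊥`, and `c + n ≤ p * c + 1` (if `c ≥ 1` because
`c + (p - 2) * c + 1 = (p - 1) * c + 1`; the case `c = 0` is clear). -/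
def StABN : Prop :=
  ∀ (p c : ℕ) [Fact p.Prime] (G : Type) [Group G] [Finite G], (∀ g : G, g ^ p = 1) →
    ∀ (V : Subgroup G) [V.Normal], (∀ x ∈ V, ∀ y ∈ V, x * y = y * x) →
    (⊤ : Subgroup G).lowerCentralSeries c ≤ V →
    (⊤ : Subgroup G).lowerCentralSeries (p * c + 1) = ⊥

/-- SOL.  PROOF (from ABN).  Put `F 0 = c`, `F (i+1) = p * F i + 1`; by induction
`F i + 1 ≤ p ^ i * (c + 1)` (as `p * F i + 2 ≤ p * (F i + 1)`). Claim:
`lowerCentralSeries (F i) ≤ D i`, by induction; the series being antitone this is enough. Step: in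
the quotient `Q = G ⧸ D (i+1)` (finite, exponent `p`), the image `V` of `D i` is a normal abelian
subgroup (`⁅D i, D i⁆ ≤ D (i+1)`) containing `lowerCentralSeries (F i)` of `Q` (image of that of
`G`, `Subgroup.map_lowerCentralSeries`). ABN: `lowerCentralSeries (p * F i + 1) = ⊥` in `Q`, i.e.
`lowerCentralSeries (F (i+1)) ≤ D (i+1)` in `G`. -/
def StSOL : Prop :=
  ∀ (p : ℕ) [Fact p.Prime] (G : Type) [Group G] [Finite G], (∀ g : G, g ^ p = 1) →
    ∀ D : ℕ → Subgroup G, (∀ i, (D i).Normal) → (∀ i, ⁅D i, D i⁆ ≤ D (i + 1)) →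
    ∀ c : ℕ, (⊤ : Subgroup G).lowerCentralSeries c ≤ D 0 →
    ∀ i, (⊤ : Subgroup G).lowerCentralSeries (p ^ i * (c + 1)) ≤ D i

/-! ### Extensions from above -/

/-- HAL (P. Hall).  PROOF.  `L i := N.lowerCentralSeries i` (`L 0 = N`, `L (i+1) = ⁅L i, N⁆`; normal in
`G`), `Γ k` the lower central series of `G`; for a subgroup `A` let `I^n A` be the `n`-fold
commutator `⁅⋯⁅A, ⊤⁆⋯, ⊤⁆`. `I^n` is monotone, `I^n A ≤ A` for `A` normal, `I^(n+1) A ≤ I^n A`,
`Γ (a + b) = I^b (Γ a)`, `I (A ⊔ B) ≤ I A ⊔ I B` for normal `A, B`.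
(1) For normal `A, B`: `⁅⁅A, B⁆, ⊤⁆ ≤ ⁅⁅A, ⊤⁆, B⁆ ⊔ ⁅A, ⁅B, ⊤⁆⁆` (three subgroups lemma in the
quotient by the right hand side). Hence `I^n ⁅A, B⁆ ≤ ⨆_{a + b = n} ⁅I^a A, I^b B⁆`.
(2) Claim: `I^((i+1) e) (L i) ≤ L (i+1)`. `i = 0`: `I^e N ≤ I^e ⊤ = Γ e ≤ ⁅N, N⁆ = L 1`. Step
(`n = (i+2) e`): `I^n (L (i+1)) = I^n ⁅L i, N⁆ ≤ ⨆_{a+b=n} ⁅I^a (L i), I^b N⁆`. If
`a ≥ (i+1) e` then `I^a (L i) ≤ L (i+1)` and the term is in `⁅L (i+1), N⁆ = L (i+2)`; otherwise
`b ≥ e`, `I^b N ≤ ⁅N, N⁆` and `⁅L i, ⁅N, N⁆⁆ ≤ ⁅⁅L i, N⁆, N⁆ = L (i+2)` (three subgroups lemma).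
(3) `Γ (e * (1 + 2 + ⋯ + j)) ≤ L j` for `j ≥ 1`, by induction on `j`: `Γ e ≤ L 1`, and
`Γ (s + (j+1) e) = I^((j+1)e) (Γ s) ≤ I^((j+1)e) (L j) ≤ L (j+1)`.
(4) `c ≥ 1`: `L c = ⊥` and `1 + ⋯ + c ≤ (c+1)^2`. If `c = 0` then `N = ⊥`, `Γ e ≤ ⁅N,N⁆ = ⊥`. -/
def StHAL : Prop :=
  ∀ (G : Type) [Group G] (N : Subgroup G) [N.Normal] (e c : ℕ),
    (⊤ : Subgroup G).lowerCentralSeries e ≤ ⁅N, N⁆ → N.lowerCentralSeries c = ⊥ →
    (⊤ : Subgroup G).lowerCentralSeries (e * (c + 1) ^ 2) = ⊥

/-- ORD.  PROOF.  `Γ i` = lower central series.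
(1) For every `i` there is `s : (Fin (i+1) → Fin m) → G` with values in `Γ i` and
`Γ i ≤ Subgroup.closure (Set.range s) ⊔ Γ (i+1)`: for `i = 0` the generators `f`; step:
`s' (j_0, …, j_{i+1}) = ⁅s (j_0, …, j_i), f j_{i+1}⁆`. Indeed modulo the normal subgroup `Γ (i+2)`
the elements of `Γ (i+1)` are central; so the commutator map `Γ i × G → Γ (i+1) / Γ (i+2)` is
multiplicative in both variables, and trivial on `Γ (i+1) × G`; so its image is in the subgroup
generated by the classes of the `⁅s _, f _⁆` (a set closed under the operations used: prove that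
`{g | ∀ u ∈ range s, ⁅u, g⁆ ∈ closure(range s') ⊔ Γ (i+2)}` and then
`{u | ∀ g, ⁅u, g⁆ ∈ closure (range s') ⊔ Γ (i+2)}` are subgroups).
(2) `Γ i / Γ (i+1)` is commutative of exponent `p`, generated by `m ^ (i+1)` elements, so it has at
most `p ^ (m ^ (i+1))` elements (every element is a product of powers `s_j ^ a_j`, `0 ≤ a_j < p`;
or: induction on the number of generators, the subgroup generated by a subgroup `X` and an
element `s` commuting modulo `Γ (i+1)` has order at most `p` times that of `X`).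
(3) `Nat.card G = ∏_{i < e} (Γ i : Γ (i+1)) ≤ p ^ (m + m^2 + ⋯ + m^e) ≤ p ^ ((m+1)^(e+1))`. -/
def StORD : Prop :=
  ∀ (p m e : ℕ) [Fact p.Prime] (G : Type) [Group G] [Finite G], (∀ g : G, g ^ p = 1) →
    ∀ f : Fin m → G, Subgroup.closure (Set.range f) = ⊤ →
    (⊤ : Subgroup G).lowerCentralSeries e = ⊥ →
    Nat.card G ≤ p ^ ((m + 1) ^ (e + 1))

/-- GEN.  PROOF (from ORD).  Put `n = (m+1)^(e+1)`, `Q = G ⧸ ⁅N, N⁆`, finite of exponent `p`,
generated by the images of the `f i`, with `lowerCentralSeries e = ⊥`; by ORD `Nat.card Q ≤ p ^ n`.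
(a) Every subgroup `H` of a finite `p`-group `Q` of order `≤ p ^ n` is generated by `n` elements: if
`h_1, …, h_j ∈ H` generate a proper subgroup of `H`, choose `h_{j+1} ∈ H` outside; the orders of
the subgroups generated by `h_1, …, h_j` are powers of `p`, strictly increasing, so at least `p ^ j`;
the process stops with `j ≤ n` (pad with `1`).
(b) Apply (a) to the image of `N` in `Q` and lift the generators to elements `f' i` of `N`: the
subgroup `K` of `N` generated by the `f' i` satisfies `K ⊔ commutator N = ⊤` (in `N`; note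
`Subgroup.map_subtype_commutator`).
(c) `N` is a finite `p`-group, hence nilpotent, and `K ⊔ commutator N = ⊤` implies `K = ⊤`: by
induction `K ⊔ Γ i = ⊤` for all `i ≥ 1`, `Γ i` the lower central series of `N`: if `K ⊔ Γ i = ⊤`
then every commutator `⁅k z, k' z'⁆`, `k, k' ∈ K`, `z, z' ∈ Γ i`, is congruent to
`⁅k, k'⁆ ∈ K` modulo `Γ (i+1)` (`Γ i` is central modulo `Γ (i+1)`), so
`commutator N ≤ K ⊔ Γ (i+1)` and `⊤ = K ⊔ commutator N ≤ K ⊔ Γ (i+1)`. (Or: a maximal
subgroup of a finite nilpotent group is normal of prime index, hence contains the commutator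
subgroup.) -/
def StGEN : Prop :=
  ∀ (p m e : ℕ) [Fact p.Prime] (G : Type) [Group G] [Finite G], (∀ g : G, g ^ p = 1) →
    (∃ f : Fin m → G, Subgroup.closure (Set.range f) = ⊤) →
    ∀ (N : Subgroup G) [N.Normal], (⊤ : Subgroup G).lowerCentralSeries e ≤ ⁅N, N⁆ →
    ∃ f' : Fin ((m + 1) ^ (e + 1)) → N, Subgroup.closure (Set.range f') = ⊤

/-! ### The theorem -/

/-- INN (the inner part: PI-by-soluble).  PROOF (from PIR and SOL).  `C₀` from PIR, `C = p ^ s * (C₀ + 1)`.
Let `K = ⨅ i, (ρ i).ker`, a normal subgroup of `N`. By PIR the term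
`lowerCentralSeries (C₀ * (m+1))` of `N` is contained in every `(ρ i).ker`, so in `K`. Let
`D i = (derivedSeries K i).map K.subtype`, normal in `N` (characteristic in a normal subgroup),
`D 0 = K`, `⁅D i, D i⁆ = D (i+1)`, `D s = ⊥`. SOL with `c = C₀ * (m+1)`:
`lowerCentralSeries (p ^ s * (C₀ * (m+1) + 1)) ≤ D s = ⊥`, and
`p ^ s * (C₀ * (m+1) + 1) ≤ C * (m + 1)`. -/
def StINN : Prop :=
  ∀ (p d s : ℕ) [Fact p.Prime], ∃ C : ℕ, ∀ (m : ℕ) (N : Type) [Group N] [Finite N],
    (∀ g : N, g ^ p = 1) → (∃ f : Fin m → N, Subgroup.closure (Set.range f) = ⊤) →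
    ∀ (ι : Type) (W : ι → Type) [∀ i, AddCommGroup (W i)] [∀ i, Module (ZMod p) (W i)]
      (ρ : ∀ i, Representation (ZMod p) N (W i)), (∀ i, MLRel p d (ρ i)) →
    derivedSeries (⨅ i, (ρ i).ker : Subgroup N) s = ⊥ →
    (⊤ : Subgroup N).lowerCentralSeries (C * (m + 1)) = ⊥

/-- ASM.  PROOF (from INN, SOL, HAL, GEN).  `C₁` from INN. If `t = 0` then `G ⧸ N` is trivial,
`N = ⊤`, and the representations of `N` are representations of `G` (transport along
`Subgroup.topEquiv`; or apply INN to `N` itself, which is generated by `m` elements, and transport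
the conclusion `(⊤ : Subgroup N).lowerCentralSeries = ⊥` to `G`). If `t ≥ 1`: SOL with
`D i = derivedSeries G i`, `c = 0`: `lowerCentralSeries (p ^ i) ≤ derivedSeries G i`; and
`derivedSeries G t ≤ N`, so `derivedSeries G (t+1) ≤ ⁅N, N⁆`; with `e = p ^ (t+1)`,
`lowerCentralSeries e ≤ ⁅N, N⁆`. GEN: `N` is generated by `m' = (m+1)^(e+1)` elements. INN:
`(⊤ : Subgroup N).lowerCentralSeries (C₁ * (m' + 1)) = ⊥`, so
`N.lowerCentralSeries (C₁ * (m'+1)) = ⊥` (`Subgroup.top_subtype_lowerCentralSeries`). HAL: the class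
of `G` is at most `e * (C₁ * (m' + 1) + 1)^2 ≤ e * (2 * C₁ + 1)^2 * (m+1)^(2 * (e+1))`. -/
def StASM : Prop :=
  ∀ (p d s t : ℕ) [Fact p.Prime], ∃ C : ℕ, ∀ (m : ℕ) (G : Type) [Group G] [Finite G],
    (∀ g : G, g ^ p = 1) → (∃ f : Fin m → G, Subgroup.closure (Set.range f) = ⊤) →
    ∀ (N : Subgroup G) [N.Normal], derivedSeries (G ⧸ N) t = ⊥ →
    ∀ (ι : Type) (W : ι → Type) [∀ i, AddCommGroup (W i)] [∀ i, Module (ZMod p) (W i)]
      (ρ : ∀ i, Representation (ZMod p) N (W i)), (∀ i, MLRel p d (ρ i)) →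
    derivedSeries (⨅ i, (ρ i).ker : Subgroup N) s = ⊥ →
    (⊤ : Subgroup G).lowerCentralSeries
      (C * (m + 1) ^ (if t = 0 then 1 else 2 * (p ^ (t + 1) + 1))) = ⊥

/-- DIC.  PROOF (from INN with `s = 1`, `ι = Unit`).  `C` from INN. Make `V` a commutative group of
exponent `p`, so `W = Additive V` is an `𝔽_p`-vector space (`AddCommGroup.zmodModule`); let
`ρ : Representation (ZMod p) G W` be the conjugation action (`MulAut.conjNormal`; additive maps
between `𝔽_p`-vector spaces are linear, `AddMonoidHom.toZModLinearMap`). With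
`b σ = (a σ : ZMod p)`, not all zero, the hypothesis says
`∑ σ, b σ • ρ (List.ofFn fun i => g (σ i)).prod = 0` (`(a σ : ZMod p) • w = a σ • w`; the product of
the list `Finset.univ.toList.map _` is the product over the finite set because `V` is
commutative). So `MLRel p d ρ`. The kernel `K` of `ρ` is the centralizer of `V`, contained in `V`
by hypothesis, hence abelian: `derivedSeries K 1 = ⊥`. -/
def StDIC : Prop :=
  ∀ (p d : ℕ) [Fact p.Prime], ∃ C : ℕ, ∀ (m : ℕ) (G : Type) [Group G] [Finite G],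
    (∀ g : G, g ^ p = 1) → (∃ f : Fin m → G, Subgroup.closure (Set.range f) = ⊤) →
    ∀ (V : Subgroup G) [V.Normal], (∀ x ∈ V, ∀ y ∈ V, x * y = y * x) →
    (∀ g : G, (∀ v ∈ V, g * v = v * g) → g ∈ V) →
    ∀ a : Equiv.Perm (Fin d) → ℕ, (∃ σ, ¬ p ∣ a σ) →
    (∀ g : Fin d → G, ∀ v ∈ V,
      ((Finset.univ : Finset (Equiv.Perm (Fin d))).toList.map fun σ =>
        ((List.ofFn fun i => g (σ i)).prod * v * ((List.ofFn fun i => g (σ i)).prod)⁻¹) ^
          a σ).prod = 1) →
    (⊤ : Subgroup G).lowerCentralSeries (C * (m + 1)) = ⊥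

end Pool.Agent.Helper83.RB
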