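import Pool.Agent.Helper83.RB.St

set_option autoImplicit false

/-!
Project RB, second file of statements: the augmentation ideal acts nilpotently, of linear index.
-/

namespace Pool.Agent.Helper83.RB

open scoped BigOperators

/-- The abelian normal subgroup `V` of `G` satisfies the multilinear relation with coefficients
`a`: for all `g_0, …, g_{d-1}` in `G` and `v` in `V` the product over `σ` of the conjugates
`(x_σ v x_σ⁻¹) ^ (a σ)`, `x_σ = g_{σ 0} ⋯ g_{σ (d-1)}`, is trivial. -/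
def VRel (d : ℕ) {G : Type} [Group G] (V : Subgroup G) (a : Equiv.Perm (Fin d) → ℕ) : Prop :=
  ∀ g : Fin d → G, ∀ v ∈ V,
      ((Finset.univ : Finset (Equiv.Perm (Fin d))).toList.map fun σ =>
        ((List.ofFn fun i => g (σ i)).prod * v * ((List.ofFn fun i => g (σ i)).prod)⁻¹) ^
          a σ).prod = 1

/-- NIL.  PROOF (from DEC, RWR, SPN, UNI).  Same constant `C₀` and same steps (1), (2) as in PIC
(copy `Pool/Agent/Helper9/RB/M_PIC.lean`): `ev y w = 0` for all words of length `≥ T`, where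
`y i = φ (f i) - 1`, `T ≤ C₀ * (m + 1)`. With the filtration `J k` of JFI (copy the beginning of
`Pool/Agent/Helper89/RB/M_JFI.lean`): `φ g - 1 ∈ J 1` for all `g : N`, `J a * J b ⊆ J (a + b)`, and
`J T = 0`. So a product of at least `T` elements `φ g - 1` is in `J T = 0`. (`d = 0`: `B` is
trivial.) -/
def StNIL : Prop :=
  ∀ (p d : ℕ) [Fact p.Prime], ∃ C₀ : ℕ, ∀ (m : ℕ) (N : Type) [Group N], (∀ g : N, g ^ p = 1) →
    (∃ f : Fin m → N, Subgroup.closure (Set.range f) = ⊤) →
    ∀ (B : Type) [Ring B] [Algebra (ZMod p) B], PIdeg p d B → ∀ φ : N →* Bˣ,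
    ∀ l : List N, C₀ * (m + 1) ≤ l.length →
    (List.map (fun g : N => ((φ g : Bˣ) : B) - 1) l).prod = 0

/-- NIR.  PROOF (from NIL).  As PIR (copy `Pool/Agent/Helper67/RB/M_PIR.lean`; only the last five
lines change). -/
def StNIR : Prop :=
  ∀ (p d : ℕ) [Fact p.Prime], ∃ C₀ : ℕ, ∀ (m : ℕ) (N : Type) [Group N], (∀ g : N, g ^ p = 1) →
    (∃ f : Fin m → N, Subgroup.closure (Set.range f) = ⊤) →
    ∀ (W : Type) [AddCommGroup W] [Module (ZMod p) W] (ρ : Representation (ZMod p) N W),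
    MLRel p d ρ → ∀ l : List N, C₀ * (m + 1) ≤ l.length →
    (List.map (fun g : N => ρ g - 1) l).prod = 0

/-- BOT.  PROOF (from NIR).  `C` from NIR. As in DIC (project file `St.lean`; the module is
`Pool/Agent/Helper41/RB/M_DIC.lean`) make `W = Additive V` an `𝔽_p`-vector space and let
`ρ : Representation (ZMod p) G W` be the conjugation action; the relation gives `MLRel p d ρ`, so
products of `T = C * (m + 1)` elements `ρ g - 1` vanish. Let `Γ` be the lower central series of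
`G` and `Γ k ≤ V`. Then `Γ (k + j)` is contained in the subgroup of `V` generated by the
`(ρ g_1 - 1) ⋯ (ρ g_j - 1) v`, `v ∈ V`: induction on `j`; `Γ (k + j + 1)` is generated by the
`⁅u, g⁆ = ⁅g, u⁆⁻¹ = - (ρ g - 1) u` with `u ∈ Γ (k + j)`, and `ρ g - 1` is additive. (The same
argument is at the end of ABN.) Hence `Γ (k + T) = ⊥`. -/
def StBOT : Prop :=
  ∀ (p d : ℕ) [Fact p.Prime], ∃ C : ℕ, ∀ (m : ℕ) (G : Type) [Group G],
    (∀ g : G, g ^ p = 1) → (∃ f : Fin m → G, Subgroup.closure (Set.range f) = ⊤) →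
    ∀ (V : Subgroup G) [V.Normal], (∀ x ∈ V, ∀ y ∈ V, x * y = y * x) →
    ∀ a : Equiv.Perm (Fin d) → ℕ, (∃ σ, ¬ p ∣ a σ) → VRel d V a →
    ∀ k : ℕ, (⊤ : Subgroup G).lowerCentralSeries k ≤ V →
    (⊤ : Subgroup G).lowerCentralSeries (k + C * (m + 1)) = ⊥

end Pool.Agent.Helper83.RB
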